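import Pool.Agent.H53.NR.Targets

/-! Board nrt_modules, module FB4: closure under splitting. -/

set_option autoImplicit false

namespace Pool.Agent.H54.NR

open Pool.Agent.H68.BP Pool.Agent.H58.SF Pool.Agent.H53.GC Pool.Agent.H53.NR

private theorem core {τ : Sig} {B : Type} (𝔹 : Str τ B) (en : B → ℕ) {I : Type} (x y : I → B)
    (hc : ∀ a b, en (y a) ≤ en (y b) → pt 𝔹 (y a) (y b) = pt 𝔹 (x a) (x b))
    (he : ∀ a b, y a = y b → x a = x b) (l : Fin τ.m) (a : Fin (τ.ar l) → I) (P Q : I)
    (f : Fin (τ.ar l) → Bool) (hf : ∀ i, a i = if f i = true then Q else P)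
    (hle : en (y P) ≤ en (y Q)) :
    𝔹 l (fun i => y (a i)) ↔
      (𝔹 l (fun i => x (a i)) ∧ ∀ i j, x (a i) = x (a j) → y (a i) = y (a j)) := by
  have ey : ∀ i, y (a i) = if f i = true then y Q else y P := by
    intro i
    rw [hf i]
    split_ifs <;> rfl
  have ex : ∀ i, x (a i) = if f i = true then x Q else x P := by
    intro i
    rw [hf i]
    split_ifs <;> rfl
  by_cases hPQ : y P = y Q
  · have hx := he P Q hPQ
    have ey' : ∀ i, y (a i) = y P := by
      intro i
      rw [ey i, hPQ]
      split_ifs <;> rfl
    have ex' : ∀ i, x (a i) = x P := by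
      intro i
      rw [ex i, hx]
      split_ifs <;> rfl
    have h1 := congrFun (congrFun (congrArg Subtype.val (hc P P le_rfl)) l) (fun _ => false)
    simp only [pt, ptype, eq_iff_iff] at h1
    have h2 : 𝔹 l (fun i => y (a i)) ↔ 𝔹 l (fun i => x (a i)) := by
      have e1 : (fun i => y (a i)) = fun _ : Fin (τ.ar l) => y P := funext ey'
      have e2 : (fun i => x (a i)) = fun _ : Fin (τ.ar l) => x P := funext ex'
      rw [e1, e2]
      simpa using h1
    rw [h2]
    constructor
    · intro h
      exact ⟨h, fun i j _ => by rw [ey' i, ey' j]⟩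
    · exact fun h => h.1
  · have h1 := congrFun (congrFun (congrArg Subtype.val (hc P Q hle)) l) f
    simp only [pt, ptype, eq_iff_iff] at h1
    have e1 : (fun i => y (a i)) = fun i => if f i = true then y Q else y P := funext ey
    have e2 : (fun i => x (a i)) = fun i => if f i = true then x Q else x P := funext ex
    have h2 : (x P ≠ x Q ∨ ∀ i j, f i = f j) ↔
        ∀ i j, x (a i) = x (a j) → y (a i) = y (a j) := by
      constructor
      · rintro (h | h) i j hij
        · rw [ex i, ex j] at hij
          rw [ey i, ey j]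
          by_cases hi : f i = true <;> by_cases hj : f j = true
          · rw [if_pos hi, if_pos hj]
          · rw [if_pos hi, if_neg hj] at hij
            exact absurd hij.symm h
          · rw [if_neg hi, if_pos hj] at hij
            exact absurd hij h
          · rw [if_neg hi, if_neg hj]
        · rw [ey i, ey j, h i j]
      · intro h
        by_cases hx : x P = x Q
        · refine Or.inr fun i j => ?_
          have h3 : x (a i) = x (a j) := by
            rw [ex i, ex j, hx]
            split_ifs <;> rfl
          have h4 := h i j h3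
          rw [ey i, ey j] at h4
          by_cases hi : f i = true <;> by_cases hj : f j = true
          · rw [hi, hj]
          · rw [if_pos hi, if_neg hj] at h4
            exact absurd h4.symm hPQ
          · rw [if_neg hi, if_pos hj] at h4
            exact absurd h4 hPQ
          · rw [Bool.not_eq_true] at hi hj
            rw [hi, hj]
        · exact Or.inl hx
    rw [e1, ← h2, e2]
    constructor
    · intro h
      have h5 := h1.1 ⟨Or.inl hPQ, h⟩
      exact ⟨h5.2, h5.1⟩
    · intro h
      exact (h1.2 ⟨h.2, h.1⟩).2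

theorem pf_FB4 : T_FB4 := by
  intro τ σ B 𝔹 𝔸 en hen har hcl l x y hx hc he
  refine hcl l x y hx ⟨he, fun l' a => ?_⟩
  obtain ⟨h1, h2⟩ := har l'
  have hc' : ∀ a b, en (y a) ≤ en (y b) → pt 𝔹 (y a) (y b) = pt 𝔹 (x a) (x b) :=
    fun a b hab => hc a b hab
  set i0 : Fin (τ.ar l') := ⟨0, by omega⟩ with hi0
  set i1 : Fin (τ.ar l') := ⟨τ.ar l' - 1, by omega⟩ with hi1
  have hi : ∀ i : Fin (τ.ar l'), i ≠ i0 → i = i1 := by
    intro i hne
    have h3 : i.val ≠ 0 := fun h => hne (Fin.ext h)
    apply Fin.ext
    have h4 := i.2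
    show i.val = τ.ar l' - 1
    omega
  rcases le_total (en (y (a i0))) (en (y (a i1))) with hle | hle
  · refine core 𝔹 en x y hc' he l' a (a i0) (a i1) (fun i => decide (i ≠ i0)) (fun i => ?_) hle
    by_cases h : i = i0
    · simp [h]
    · rw [if_pos (by simp [h]), hi i h]
  · refine core 𝔹 en x y hc' he l' a (a i1) (a i0) (fun i => decide (i = i0)) (fun i => ?_) hle
    by_cases h : i = i0
    · simp [h]
    · rw [if_neg (by simp [h]), hi i h]

end Pool.Agent.H54.NR
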